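import Pool.Agent.Helper29.AR.Props

/-!
# MP_b55b7c_an: packet AR-H1L
-/

open scoped ENNReal NNReal InnerProductSpace ComplexOrder
open Filter Topology

attribute [-instance] CStarMatrix.instAlgebra CStarMatrix.instModule CStarMatrix.instSMul
  CStarMatrix.instMulAction CStarMatrix.instDistribMulAction

noncomputable section
namespace RC
universe u

theorem h42_norm_one_le (M : Type u) [CStarAlgebra M] : ‖(1 : M)‖ ≤ 1 := by
  rcases subsingleton_or_nontrivial M with h | h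
  · rw [Subsingleton.elim (1 : M) 0, norm_zero]
    exact zero_le_one
  · exact (CStarRing.norm_one (E := M)).le

theorem h42_h1lP (hLc : LcP.{u}) (hDim : DimP.{u}) : H1LP.{u} := by
  intro M _ _ _ hA h s lam η θ hlam hη hθ
  set r : ℝ := min (1 / 2) (η / (2 * (‖s‖ + 1))) with hr
  have hs0 : 0 ≤ ‖s‖ := norm_nonneg s
  have hr0 : 0 < r := by
    rw [hr]
    exact lt_min (by norm_num) (by positivity)
  have hr1 : r ≤ 1 / 2 := min_le_left _ _
  have hr2 : 2 * r * ‖s‖ ≤ η := by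
    have h1 : r ≤ η / (2 * (‖s‖ + 1)) := min_le_right _ _
    have h2 : r * (2 * (‖s‖ + 1)) ≤ η := by
      rwa [le_div_iff₀ (by positivity)] at h1
    nlinarith
  obtain ⟨z, L, hz, hL0, ⟨a, b, hab⟩, hLθ⟩ := hA (1 + lam⁻¹ • (s * h * h)) r θ hr0 hθ
  set x : M := 1 + lam⁻¹ • (s * h * h) with hx
  have hzx : ‖z - x‖ ≤ r := by rw [norm_sub_rev]; exact hz
  have hwu : IsUnit (1 + (z - x)) := by
    have h1 := isUnit_one_sub_of_norm_lt_one (x := -(z - x)) (by
      rw [norm_neg]; linarith)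
    rwa [sub_neg_eq_add] at h1
  obtain ⟨w, hw⟩ := hwu
  have hi1 : ((w⁻¹ : Mˣ) : M) * (1 + (z - x)) = 1 := by rw [← hw, Units.inv_mul]
  have hi2 : (1 + (z - x)) * ((w⁻¹ : Mˣ) : M) = 1 := by rw [← hw, Units.mul_inv]
  set v : M := ((w⁻¹ : Mˣ) : M) with hv
  have hv1 : v - 1 = -((z - x) * v) := by
    have : v + (z - x) * v = 1 := by rw [← hi2]; noncomm_ring
    rw [← this]; abel
  have hvn : ‖v‖ ≤ 2 := by
    have h1 : ‖v‖ ≤ 1 + r * ‖v‖ := by
      calc ‖v‖ = ‖1 + (v - 1)‖ := by congr 1; abel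
        _ ≤ ‖(1 : M)‖ + ‖v - 1‖ := norm_add_le _ _
        _ ≤ 1 + r * ‖v‖ := by
            refine add_le_add (h42_norm_one_le M) ?_
            rw [hv1, norm_neg]
            exact (norm_mul_le _ _).trans (mul_le_mul_of_nonneg_right hzx (norm_nonneg _))
    have h2 : r * ‖v‖ ≤ 1 / 2 * ‖v‖ := mul_le_mul_of_nonneg_right hr1 (norm_nonneg _)
    linarith
  have hvn1 : ‖v - 1‖ ≤ 2 * r := by
    rw [hv1, norm_neg]
    calc ‖(z - x) * v‖ ≤ ‖z - x‖ * ‖v‖ := norm_mul_le _ _
      _ ≤ r * 2 := mul_le_mul hzx hvn (norm_nonneg _) hr0.le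
      _ = 2 * r := by ring
  set g : M := v * s with hg
  set X : M := lam⁻¹ • (g * h) with hX
  -- `v z = 1 + X h`
  have hvz : v * z = 1 + X * h := by
    have h1 : z = (1 + (z - x)) + lam⁻¹ • (s * h * h) := by
      rw [hx]; abel
    calc v * z = v * ((1 + (z - x)) + lam⁻¹ • (s * h * h)) := by rw [← h1]
      _ = v * (1 + (z - x)) + lam⁻¹ • (v * (s * h * h)) := by
          rw [mul_add, mul_smul_comm]
      _ = 1 + X * h := by
          rw [hi1, hX, hg, smul_mul_assoc]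
          simp only [mul_assoc]
  set a1 : M := a * (1 + (z - x)) with ha1
  have h1 : a1 * (1 + X * h) + b * L = 1 := by
    rw [ha1, ← hvz, mul_assoc, ← mul_assoc (1 + (z - x)) v z, hi2, one_mul]
    exact hab
  have h2 : (1 - h * a1 * X) * (1 + h * X) + (-(h * b)) * (L * X) = 1 := by
    have e1 : a1 * (1 + X * h) = 1 - b * L := eq_sub_of_add_eq h1
    have e2 : (1 - h * a1 * X) * (1 + h * X) = 1 + h * X - h * (a1 * (1 + X * h)) * X := by
      noncomm_ring
    rw [e2, e1]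
    noncomm_ring
  obtain ⟨h3, a', b', h4⟩ := hLc M 1 (1 + h * X) (1 - h * a1 * X) (fun _ => -(h * b))
    (fun _ => L * X) (by simpa using h2)
  simp only [Finset.univ_unique, Finset.sum_const, Finset.card_singleton, one_smul] at h3 h4
  refine ⟨g, sq (L * X), ?_, h3, ⟨lam⁻¹ • a', b', ?_⟩, ?_⟩
  · have e1 : g - s = (v - 1) * s := by rw [hg, sub_mul, one_mul]
    rw [e1]
    exact (norm_mul_le _ _).trans ((mul_le_mul_of_nonneg_right hvn1 hs0).trans hr2)
  · have e1 : lam • (1 : M) + h * g * h = lam • (1 + h * X) := by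
      rw [smul_add, hX, mul_smul_comm, smul_smul, mul_inv_cancel₀ hlam.ne', one_smul, mul_assoc]
    rw [e1, smul_mul_smul_comm, inv_mul_cancel₀ hlam.ne', one_smul]
    exact h4
  · intro φ σ hq
    have h5 := (hDim M σ).2.2.1 L 1 X hL0
    rw [one_mul] at h5
    exact h5.trans (hLθ φ σ hq)

end RC
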